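import Pool.Agent.Helper65.RT.Goals

/-!
# Parallel machines with adaptive reads are simulated in linear space
-/

namespace Pool.Agent.Helper65.RT

open Pool.Agent.Helper65.LinSpace Pool.Agent.Helper78.Mpc Pool.Agent.Helper28.Ram Finset
open Pool.Agent.Helper28.Ram.Mach (sgz)

namespace Mach

variable {m : Mach} {p : ℕ}

theorem T_lt (hm : m.Ok) (k x : ℕ) : m.T k x < 2 ^ m.b := by
  cases k with
  | zero => exact hm.ht0 x
  | succ k => exact hm.ho _ _

theorem rel_init [hp : Fact p.Prime] (hm : m.Ok) {J : ℕ} (hf : m.Fit p J) :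
    m.Rel J (trc (6 * J) m.initA) (m.st0 p) := by
  have hp0 := hp.out.pos
  refine ⟨fun x hx => ?_, fun t _ => ?_⟩
  · have h1 : trc (6 * J) m.initA x = m.initA x := if_pos hx
    rw [h1]
    have h4 := hf.h4
    have h5 := hf.h5
    set l := m.K * (m.G + 2) with hl
    have e : m.initA x = m.enc (m.st0 p) x := by
      unfold initA enc st0 St.call St.query
      rw [← hl]
      simp only [ifz_eq01]
      by_cases hx1 : x = 6 * l + 1
      · have a1 : x % 6 = 1 := by omega
        have a2 : x / 6 = l := by omega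
        rw [if_pos hx1, a1, a2]
        simp
      · rw [if_neg hx1]
        by_cases hx2 : x = 6 * l + 2
        · have a1 : x % 6 = 2 := by omega
          have a2 : x / 6 = l := by omega
          rw [if_pos hx2, a1, a2]
          simp
        · rw [if_neg hx2]
          by_cases c0 : x % 6 = 0
          · simp [c0, eq01]
          by_cases c1 : x % 6 = 1
          · have a2 : x / 6 ≠ l := by omega
            simp [c1, Function.update_of_ne a2, eq01]
          by_cases c2 : x % 6 = 2
          · have a2 : x / 6 ≠ l := by omega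
            simp [c2, Function.update_of_ne a2, eq01]
          by_cases c3 : x % 6 = 3
          · by_cases a2 : x / 6 = l
            · simp [c3, a2, eq01]
            · simp [c3, Function.update_of_ne a2, eq01]
          by_cases c4 : x % 6 = 4
          · by_cases a2 : x / 6 / m.σ = m.K
            · simp [c4, a2, eq01]
            · simp [c4, a2, eq01, dig]
          · rw [if_neg c0, if_neg c1, if_neg c2, if_neg c3, if_neg c4]
            have e1 : eq01 (x % 6) 4 = 0 := by simp [eq01, c4]
            rw [e1, zero_mul]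
            by_cases a2 : x / 6 = m.K
            · rw [a2, Function.update_self]
            · rw [Function.update_of_ne a2]
    refine ⟨e, ?_⟩
    unfold initA
    simp only [ifz_eq01]
    have h6 : dig 2 m.root (x / 6 % m.σ) < 2 := dig_lt (by norm_num) _ _
    have h7 : eq01 (x % 6) 4 * (eq01 (x / 6 / m.σ) m.K * dig 2 m.root (x / 6 % m.σ)) < 2 := by
      unfold eq01
      split_ifs <;> (simp; try omega)
    split_ifs <;> omega
  · show Function.update (fun _ => 0) m.K m.root t < 2 ^ m.σ
    by_cases ht : t = m.K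
    · rw [ht, Function.update_self]
      exact hm.hroot
    · rw [Function.update_of_ne ht]
      positivity

theorem rel_proc (hREL : REL_stmt) [Fact p.Prime] (hm : m.Ok) {J : ℕ} (hf : m.Fit p J) :
    ∀ l ≤ m.K * (m.G + 2), ∀ (a : ℕ → ℕ) (s : St p), m.Rel J a s →
      m.Rel J (prc (6 * J) (m.cnt p) (m.baseA p) (m.opA p) l a) (m.proc l s) := by
  obtain ⟨h1, h2⟩ := hREL m p hm J hf
  intro l
  induction l with
  | zero =>
    intro _ a s h
    exact h2 a s h
  | succ l ih =>
    intro hl a s h
    show m.Rel J (iter (fun j s => prc (6 * J) (m.cnt p) (m.baseA p) (m.opA p) l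
      (trc (6 * J) (m.opA p l j s))) (m.cnt p l) a) (iter (fun j s => m.proc l (m.op l j s))
        (m.cnt p l) s)
    generalize m.cnt p l = n
    induction n with
    | zero => exact h
    | succ n ihn => exact ih (by omega) _ _ (h1 l (by omega) n _ _ ihn)

theorem sim_eq (hREL : REL_stmt) (hFINAL : FINAL_stmt) [hp : Fact p.Prime] (hm : m.Ok) {J : ℕ}
    (hf : m.Fit p J) (hd : m.nv m.G < p - 1) : m.sim p J = m.T m.K m.root := by
  have hb := hm.hb
  have hE := hm.hE
  have hrel := rel_proc hREL hm hf (m.K * (m.G + 2)) le_rfl _ _ (rel_init hm hf)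
  have hlt := T_lt hm m.K m.root
  unfold sim
  rw [← tab_dig _ m.b hlt]
  refine tab_congr fun o ho => ?_
  have hwv : o < m.wv := by
    unfold wv
    have : m.b ≤ m.E * m.b := Nat.le_mul_of_pos_left _ hE
    omega
  have hx : m.yb m.K + o < J := by
    have h1 := hf.h1
    unfold yb zb
    rcases Nat.mod_two_eq_zero_or_one m.K with h | h <;> rw [h] <;> omega
  obtain ⟨h1, _⟩ := hrel.1 (6 * (m.yb m.K + o)) (by omega)
  rw [h1]
  unfold enc
  have e1 : 6 * (m.yb m.K + o) % 6 = 0 := by omega
  have e2 : 6 * (m.yb m.K + o) / 6 = m.yb m.K + o := by omega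
  rw [if_pos e1, e2, hFINAL m p hm hd o ho]
  unfold bitZ
  have h2 := dig_lt (q := 2) (by norm_num) (m.T m.K m.root) o
  rw [ZMod.val_natCast_of_lt (lt_of_lt_of_le h2 hp.out.two_le), Nat.mod_eq_of_lt h2]

end Mach

/-- The parts of the simulation. -/
structure Parts : Prop where
  FLAT : FLAT_stmt
  REL : REL_stmt
  FINAL : FINAL_stmt
  LSOP : LSOP_stmt
  PARA : PARA_stmt
  PARB : PARB_stmt

variable {α : Type} [Ctx α]

theorem ls_ll {n : α → ℕ} (hn : LS n) : LS (fun a => ll (n a)) := by
  unfold ll
  fun_prop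

theorem ls_qT {n : α → ℕ} (hn : LS n) : LS (fun a => qT (n a)) := by
  have h := ls_ll hn
  unfold qT
  fun_prop

theorem ls_pR {n : α → ℕ} (hn : LS n) : LS (fun a => pR (n a)) := by
  unfold pR
  fun_prop

theorem ls_JT {n : α → ℕ} (hn : LS n) : LS (fun a => JT (n a)) := by
  have h := ls_qT hn
  unfold JT
  fun_prop

theorem ls_CT {x : α → ℕ} (hx : LS x) : LS (fun a => CT (x a)) := by
  unfold CT
  exact (LS.add hx (LS.const 2)).pow_const 4000

theorem pR_prime (n : ℕ) : (pR n).Prime := (nextPrime_spec (by positivity)).1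

/-- **The simulation theorem for parallel machines with adaptive reads.** -/
theorem ls_simT (P : Parts) {m : α → Mach} {x : α → ℕ} (hx : LS x)
    (hM : LSM m (fun z => CT (x z))) (hpar : ∀ z, Par (Nat.log 2 (x z)) (m z)) :
    LS (fun z => (m z).sim (pR (Nat.log 2 (x z))) (JT (Nat.log 2 (x z)))) := by
  have hC := hM.bd
  have hσ := hM.σ
  have ha := hM.a
  have hb := hM.b
  have hE := hM.E
  have hG := hM.G
  have hK := hM.K
  have hroot := hM.root
  have hp : LS (fun z => pR (Nat.log 2 (x z))) := ls_pR (by fun_prop)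
  have hJ : LS (fun z => JT (Nat.log 2 (x z))) := ls_JT (by fun_prop)
  have hpp : ∀ z, 0 < pR (Nat.log 2 (x z)) := fun z => (pR_prime _).pos
  have hp1 : ∀ z, 0 < pR (Nat.log 2 (x z)) - 1 := fun z => by
    have := (pR_prime (Nat.log 2 (x z))).two_le
    omega
  obtain ⟨hop, hbase⟩ := P.LSOP hM hp hpp
  have hPar2 := fun z => P.PARB (x z) (m z) (hM.ok z) (hpar z)
  have hcnt0 : ∀ z l, 0 < (m z).cnt (pR (Nat.log 2 (x z))) l := by
    intro z l
    unfold Mach.cnt ifz
    split_ifs
    · exact Nat.mul_pos (Nat.mul_pos (by positivity) (hp1 z)) (by omega)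
    · exact Nat.mul_pos (hp1 z) (by omega)
  have hpw : LS (fun z => 2 ^ ((m z).σ * (m z).E)) :=
    LS.pow_of_le (f := fun _ => 2) (C := fun z => CT (x z)) (by fun_prop) (by fun_prop) hC hM.hS
  have hcnt : LS (fun z : α × ℕ => (m z.1).cnt (pR (Nat.log 2 (x z.1))) z.2) := by
    unfold Mach.cnt
    have a1 : LS (fun z : α × ℕ => (m z.1).G) := LS.comp (f := fun z : α × ℕ => z.1) hG
      (by fun_prop)
    have a2 : LS (fun z : α × ℕ => (m z.1).E) := LS.comp (f := fun z : α × ℕ => z.1) hE
      (by fun_prop)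
    have a3 : LS (fun z : α × ℕ => 2 ^ ((m z.1).σ * (m z.1).E)) :=
      LS.comp (f := fun z : α × ℕ => z.1) hpw (by fun_prop)
    have a4 : LS (fun z : α × ℕ => pR (Nat.log 2 (x z.1))) :=
      LS.comp (f := fun z : α × ℕ => z.1) hp (by fun_prop)
    fun_prop
  have hini : LS (fun z : α × ℕ => (m z.1).initA z.2) := by
    unfold Mach.initA
    have a1 : LS (fun z : α × ℕ => (m z.1).G) := LS.comp (f := fun z : α × ℕ => z.1) hG
      (by fun_prop)
    have a2 : LS (fun z : α × ℕ => (m z.1).K) := LS.comp (f := fun z : α × ℕ => z.1) hK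
      (by fun_prop)
    have a3 : LS (fun z : α × ℕ => (m z.1).σ) := LS.comp (f := fun z : α × ℕ => z.1) hσ
      (by fun_prop)
    have a4 : LS (fun z : α × ℕ => (m z.1).root) := LS.comp (f := fun z : α × ℕ => z.1) hroot
      (by fun_prop)
    fun_prop
  have hflat := P.FLAT (β := fun z => pR (Nat.log 2 (x z)))
    (Λ := fun z => 6 * JT (Nat.log 2 (x z)))
    (lv := fun z => (m z).K * ((m z).G + 2)) (C := fun z => CT (x z))
    (cnt := fun z => (m z).cnt (pR (Nat.log 2 (x z))))
    (base := fun z => (m z).baseA (pR (Nat.log 2 (x z))))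
    (op := fun z => (m z).opA (pR (Nat.log 2 (x z))))
    (s0 := fun z => (m z).initA)
    hp (by fun_prop) (by fun_prop) hC hcnt hbase hop hini
    (fun z s x => Nat.mod_lt _ (hpp z)) (fun z l j s x => Nat.mod_lt _ (hpp z)) ?_
    (fun z => (hPar2 z).1.1) (fun z => (hPar2 z).1.2) hcnt0
  · have hCb : ∀ z, 2 ^ (m z).b ≤ CT (x z) := by
      intro z
      refine le_trans (Nat.pow_le_pow_right (by norm_num) ?_) (hM.hC z)
      unfold Mach.nv Mach.wv
      have : (m z).b ≤ (m z).E * (m z).b := Nat.le_mul_of_pos_left _ (hM.ok z).hE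
      omega
    have hfin : LS (fun z => tab 2 (m z).b fun o => prc (6 * JT (Nat.log 2 (x z)))
        ((m z).cnt (pR (Nat.log 2 (x z)))) ((m z).baseA (pR (Nat.log 2 (x z))))
        ((m z).opA (pR (Nat.log 2 (x z)))) ((m z).K * ((m z).G + 2))
        (trc (6 * JT (Nat.log 2 (x z))) (m z).initA)
        (6 * ((m z).yb (m z).K + o)) % 2) := by
      refine LS.tab (q := fun _ => 2) (m := fun z => (m z).b) (C := fun z => CT (x z))
        (d := fun z o => prc (6 * JT (Nat.log 2 (x z)))
        ((m z).cnt (pR (Nat.log 2 (x z)))) ((m z).baseA (pR (Nat.log 2 (x z))))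
        ((m z).opA (pR (Nat.log 2 (x z)))) ((m z).K * ((m z).G + 2))
        (trc (6 * JT (Nat.log 2 (x z))) (m z).initA)
        (6 * ((m z).yb (m z).K + o)) % 2) ?_ (LS.const 2) hb hC
        (fun z i _ => Nat.mod_lt _ (by norm_num)) hCb
      refine LS.mod ?_ (LS.const 2)
      have a1 : LS (fun z : α × ℕ => (m z.1).G) := LS.comp (f := fun z : α × ℕ => z.1) hG
        (by fun_prop)
      have a2 : LS (fun z : α × ℕ => (m z.1).b) := LS.comp (f := fun z : α × ℕ => z.1) hb
        (by fun_prop)
      have a3 : LS (fun z : α × ℕ => (m z.1).a) := LS.comp (f := fun z : α × ℕ => z.1) ha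
        (by fun_prop)
      have a4 : LS (fun z : α × ℕ => (m z.1).E) := LS.comp (f := fun z : α × ℕ => z.1) hE
        (by fun_prop)
      have a5 : LS (fun z : α × ℕ => (m z.1).K) := LS.comp (f := fun z : α × ℕ => z.1) hK
        (by fun_prop)
      have a6 : LS (fun z : α × ℕ => (z.1, 6 * ((m z.1).yb (m z.1).K + z.2))) := by
        unfold Mach.yb Mach.zb Mach.wn Mach.wv
        fun_prop
      exact LS.comp (f := fun z : α × ℕ => (z.1, 6 * ((m z.1).yb (m z.1).K + z.2))) hflat a6
    exact hfin
  · intro z i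
    have h4 := (P.PARA (Nat.log 2 (x z)) (m z) (hM.ok z) (hpar z)).1.h4
    have h5 := (P.PARA (Nat.log 2 (x z)) (m z) (hM.ok z) (hpar z)).1.h5
    show (m z).initA i < _
    unfold Mach.initA
    simp only [ifz_eq01]
    have h6 : dig 2 (m z).root (i / 6 % (m z).σ) < 2 := dig_lt (by norm_num) _ _
    have h7 : eq01 (i % 6) 4 * (eq01 (i / 6 / (m z).σ) (m z).K *
        dig 2 (m z).root (i / 6 % (m z).σ)) < 2 := by
      unfold eq01
      split_ifs <;> (simp; try omega)
    split_ifs <;> omega

/-- The simulation theorem in the form which is used for machines on words. -/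
noncomputable def simOf (P : Parts) : Sim where
  sim n m := m.sim (pR n) (JT n)
  ls hx hM hpar := ls_simT P hx hM hpar
  eq m n hok hpar := by
    have h := P.PARA n m hok hpar
    have : Fact (pR n).Prime := ⟨pR_prime _⟩
    exact Mach.sim_eq P.REL P.FINAL hok h.1 h.2
  nv m x hok hpar := (P.PARB x m hok hpar).2

end Pool.Agent.Helper65.RT
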