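import Pool.Agent.Helper65.RT.Sim
import Pool.Agent.Helper93.RT.LINE
import Pool.Agent.Helper35.RT.TRUTH
import Pool.Agent.Helper17.RT.ELEV
import Pool.Agent.Helper59.RT.NLEV
import Pool.Agent.Helper30.RT.PROC
import Pool.Agent.Helper70.RT.REL
import Pool.Agent.Helper83.RT.LSFN
import Pool.Agent.Helper74.RT.LSOP
import Pool.Agent.Helper94.RT.PAR
import Pool.Agent.Helper19.Ram.FLAT

/-!
# The simulation theorem for parallel machines with adaptive reads: all parts
-/

namespace Pool.Agent.Helper65.RT

theorem parts : Parts where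
  FLAT := Pool.Agent.Helper19.Ram.FLAT
  REL := Pool.Agent.Helper70.RT.REL
  FINAL := Pool.Agent.Helper30.RT.final (Pool.Agent.Helper30.RT.proc
    (Pool.Agent.Helper17.RT.elev Pool.Agent.Helper93.RT.INNER)
    (Pool.Agent.Helper59.RT.nlev Pool.Agent.Helper93.RT.LINE Pool.Agent.Helper35.RT.truth)
    Pool.Agent.Helper30.RT.agree)
  LSOP := Pool.Agent.Helper74.RT.lsop Pool.Agent.Helper83.RT.lsfn
  PARA := Pool.Agent.Helper94.RT.PARA
  PARB := Pool.Agent.Helper94.RT.PARB

/-- Parallel machines on numbers are simulated in linear space. -/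
noncomputable def theSim : Sim := simOf parts

end Pool.Agent.Helper65.RT
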