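import Pool.Agent.Helper65.RT.Num
import Pool.Agent.Helper28.Ram.Goals

/-!
# Parallel machines with adaptive reads: the statements of the parts of the simulation

Every statement comes with its proof in words. The statements are close to those of
`Pool.Agent.Helper81.Tok3.Goals`, whose proofs (`Pool.Agent.Helper81.Tok3.*`) can be adapted.
-/

namespace Pool.Agent.Helper65.RT

open Pool.Agent.Helper65.LinSpace Pool.Agent.Helper28.Ram Pool.Agent.Helper81.Tok3 Finset
open Pool.Agent.Helper28.Ram.Mach (sgz)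
open Pool.Agent.Helper81.Tok3.Mach (addR scaR)

/-! ### The polynomials -/

/-- INNER. As `Tok3.INNER_stmt` (file `Tok3/INNER.lean`). -/
def INNER_stmt : Prop := ∀ (m : Mach) (p : ℕ) [Fact p.Prime] (N i q : ℕ) (F : ℕ → ℕ)
    (X Y D : ℕ → ZMod p), N < p - 1 →
    ∑ c ∈ range (p - 1), fhat p N F q
      (m.vars p i X fun o => ((c + 1 : ℕ) : ZMod p) * Y o + D o) = -fhat p N F q (m.vars p i X D)

/-- LINE. With `PD` as in `Tok3/INNER.lean` (`pd_fhat`): the function
`x ↦ m.P p k i u (fun j => x * X j + V j) o` is `PD (nv i)` for `i < G` and `PD (G * wn)` for `i = G`;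
both are smaller than `p - 1`, and `sum_eval_eq` finishes. -/
def LINE_stmt : Prop := ∀ (m : Mach) (p : ℕ) [Fact p.Prime], m.nv m.G < p - 1 →
    ∀ (k i u : ℕ) (X V : ℕ → ZMod p) (o : ℕ), i ≤ m.G →
      ∑ w ∈ range (p - 1), m.P p k i u (fun j => ((w + 1 : ℕ) : ZMod p) * X j + V j) o =
        -m.P p k i u V o

/-- TRUTH. At the true values the polynomials give the true values. Put `R = m.T k`,
`Z n = m.Zt R x n`. `Z n < 2 ^ (a * n)` by induction (`g < 2 ^ a`); `T k u < 2 ^ b` for all `u`.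
(1) `Z (n + 1) % 2 ^ (a * n) = Z n`, so for `j < a * n`, `n ≤ N` the bit `j` of `Z N` is the bit `j` of
`Z n`. So for `i ≤ G` and `j < i * wn` the bit `j` of `Z (i * E)` is the bit `j % wn` of
`vn k (j / wn) x = Z (j / wn * E + E) / 2 ^ (j / wn * wn)`, that is `V k (j / wn) x (j % wn)`
(`i * wn = a * (i * E)`).
(2) `i = G`: by (1), `fhat_congr` and `fhat_bits` the left side is
`bitZ p (o x (Z (G * E))) o = bitZ p (T (k + 1) x) o`.
(3) `i < G`. Let `y < 2 ^ (σ * E)` and
`z = Z (i * E) + 2 ^ (i * wn) * tab (2 ^ b) E (fun e => T k (dig (2 ^ σ) y e))`. Then `z < 2 ^ nv i`, and by (1)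
the bit `j < nv i` of `z` is `m.vars p i (fun j => m.V p k (j / wn) x (j % wn)) (m.Y p k y) j`; so the term
of `y` is `bitZ p (F i x y z) o`. Let `y₀ = tab (2 ^ σ) E (fun e => q x (i E + e) (Z (i E + e)))`. If the digits
`< e` of `y` are those of `y₀` (`e ≤ E`) then `Zr i x z e = Z (i E + e)`, by induction on `e`
(`z % 2 ^ (i * wn) = Z (i * E)`, and the digit `e` of `z / 2 ^ (i * wn)` is `T k (dig (2 ^ σ) y e)`). So
`ok i x y z n` (`n ≤ E`) is `1` if the digits `< n` of `y` are those of `y₀`, and `0` otherwise (once it is `0` it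
stays `0`; consider the first wrong digit). So only `y₀` contributes to the sum, and its term is
`bitZ p (Z (i E + E) / 2 ^ (i * wn)) o = V k i x o`. -/
def TRUTH_stmt : Prop := ∀ (m : Mach) (p : ℕ) [Fact p.Prime], m.Ok →
    ∀ (k i x o : ℕ), i ≤ m.G →
      m.P p k i x (fun j => m.V p k (j / m.wn) x (j % m.wn)) o = m.V p k i x o

/-! ### The procedures -/

/-- ELEV (may assume INNER). The evaluation of the polynomials. Put `k = l / (G + 2)`, so
`l = k * (G + 2)`. All operations only set mode, node and sign of the level `l` and change `R`, `qa k`,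
`sl k`, which do not matter for `Agree (l + 1)` except `R`. The ideal procedure of the level `l`, called
with mode `1`, node `G`, sign `g ∈ {0, 1}`, name `x = qa k` and position `t = sl k < E`, adds `± bit o of T k x`
to the registers `yb k + t * b + o`, `o < b` (for `l = 0`, `k = 0` by definition; for `l > 0`:
`(l - 1) / (G + 2) = k - 1`, `(l - 1) % (G + 2) = G + 1 > G`, `lo s (k - 1) G = tg s k`, `ln G = b`,
`V (k - 1) G x = T k x`); called with mode `0` it does nothing. If the level `l + 1` is not active (`md ≠ 2` or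
`nd > G`) nothing happens.
(1) `i = nd < G`, `u = qa (k + 1)`. Fix a list `y` and `c = 1, …, p - 1`. The `2 E + 3` operations, each
followed by the ideal procedure: the registers `C j = R (yb k + j)`, `j < wv`, become `c * C j`, then after the
`E` loads `c * C j + Y k y j` (the load `t - 1` changes those with `j / b = t - 1`), then
`sgn * fhat (nv i) (F i u y) o (vars i (R (zb k + ·)) (c * C + Y k y))` is added to the registers
`zb k + i * wn + o`, `o < wn` (in `vars` for `j < nv i` only `C j` with `j < wv` and the registers `zb k + j` with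
`j < i * wn` occur; both are different from those which change; `fhat_congr`), then the values are
subtracted and `C` is multiplied by `c⁻¹`. By INNER (`nv i ≤ nv G < p - 1`) the sum over `c` of what is
added is `-sgn * fhat (nv i) (F i u y) o (vars i (R (zb k + ·)) (Y k y))`. Sum over `y < 2 ^ (σ * E)`
(the registers which occur are the same for all `y`): the registers of the node change by
`-sgn * P k i u (R (zb k + ·)) o`. `cnt = 2 ^ (σ * E) * (p - 1) * (2 * E + 3)`, `iter_mul`.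
(2) `i = G`: the operation `j = 0` adds `-(sgn * P k G u (R (zb k + ·)) o)` to the registers
`tg s (k + 1) + o`, `o < b`, the others do nothing; `lo s k G = tg s (k + 1)`. (`0 < cnt`.) -/
def ELEV_stmt : Prop := ∀ (m : Mach) (p : ℕ) [Fact p.Prime], m.Ok → m.nv m.G < p - 1 →
    ∀ (l : ℕ), l % (m.G + 2) = 0 → ∀ s : Mach.St p,
      m.Agree (l + 1) (iter (fun j s => m.ideal l (m.op l j s)) (m.cnt p l) s) (m.ideal (l + 1) s)

/-- NLEV (may assume LINE and TRUTH). The evaluation of a node, as `Tok3.NLEV_stmt`: the groups of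
registers begin at `zb k` (`k = l / (G + 2)`) instead of `0`, and `lo s k G = tg s (k + 1)` is in the other
area, so that it is different from all registers `zb k + j`, `j < G * wn + wv`. -/
def NLEV_stmt : Prop := ∀ (m : Mach) (p : ℕ) [Fact p.Prime], m.Ok → m.nv m.G < p - 1 →
    ∀ (l : ℕ), l % (m.G + 2) ≠ 0 → ∀ s : Mach.St p,
      m.Agree (l + 1) (iter (fun j s => m.ideal l (m.op l j s)) (m.cnt p l) s) (m.ideal (l + 1) s)

/-- AGREE. The operations of the level `l + 1` and the ideal procedure of the level `l` read only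
those data which are the same in the two states, or overwrite them: mode, node and sign of the level
`l + 1`, `R`, `qa` and `sl` of `l / (G + 2) + 1`. -/
def AGREE_stmt : Prop := ∀ (m : Mach) (p : ℕ) [Fact p.Prime] (l : ℕ) (s t : Mach.St p),
    m.Agree l s t → (∀ j, m.Agree l (m.op l j s) (m.op l j t)) ∧
      m.Agree l (m.ideal l s) (m.ideal l t) ∧ m.Agree (l + 1) s t

/-- PROC (may assume ELEV, NLEV, AGREE). As `Tok3.PROC_stmt`. -/
def PROC_stmt : Prop := ∀ (m : Mach) (p : ℕ) [Fact p.Prime], m.Ok → m.nv m.G < p - 1 →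
    ∀ (l : ℕ) (s : Mach.St p), m.Agree l (m.proc l s) (m.ideal l s)

/-- FINAL (may assume PROC). `K = 0`: `ideal 0`. `K > 0`: the level `K (G + 2) = l + 1` has
`l / (G + 2) = K - 1` and `l % (G + 2) = G + 1`. -/
def FINAL_stmt : Prop := ∀ (m : Mach) (p : ℕ) [Fact p.Prime], m.Ok → m.nv m.G < p - 1 →
    ∀ o < m.b, (m.proc (m.K * (m.G + 2)) (m.st0 p)).R (m.yb m.K + o) = bitZ p (m.T m.K m.root) o

/-! ### The digits -/

/-- REL. The operations on digits do the same as the operations on states (`FCAST` of `Tok3` is about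
`fhG`). As `Tok3.REL_stmt`. -/
def REL_stmt : Prop := ∀ (m : Mach) (p : ℕ) [Fact p.Prime], m.Ok → ∀ (J : ℕ), m.Fit p J →
    (∀ l < m.K * (m.G + 2), ∀ (j : ℕ) (a : ℕ → ℕ) (s : Mach.St p), m.Rel J a s →
      m.Rel J (trc (6 * J) (m.opA p l j a)) (m.op l j s)) ∧
    ∀ (a : ℕ → ℕ) (s : Mach.St p), m.Rel J a s →
      m.Rel J (trc (6 * J) (m.baseA p a)) (m.op0 s)

/-- LSFN. The numeric extensions are computed in linear space. For `i < G` and `e ≤ E` the values of
`Zr i x z e` are smaller than `2 ^ (a * (i * E + e)) ≤ 2 ^ (G * wn) ≤ C`, and `ok ≤ 1`, `F < 2 ^ wn`. The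
powers: `2 ^ (a * (i * E + e)) = (2 ^ a) ^ (i * E + e)` by `LS.pow_of_le`; in `LS.nrec` the step
function must be in the class for all arguments, so replace first `e` by `min e E` (the function
`nrec` depends only on the steps before the end). Then `ls_fhG` (file `Tok3/LSFN.lean`). -/
def LSFN_stmt : Prop := ∀ {α : Type} [Ctx α] {m : α → Mach} {C p i x y q k : α → ℕ}
    {X : α → ℕ → ℕ}, LSM m C → LS p → (∀ z, 0 < p z) → LS i → LS x → LS y → LS q → LS k →
    LS (fun z : α × ℕ => X z.1 z.2) →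
    LS (fun z => fhG (p z) ((m z).nv (min (i z) ((m z).G - 1)))
      ((m z).F (min (i z) ((m z).G - 1)) (x z) (y z)) (q z)
      ((m z).varN (min (i z) ((m z).G - 1)) (fun j => X z ((m z).zb (k z) + j))
        fun j => X z ((m z).yb (k z) + j))) ∧
    LS (fun z => fhG (p z) ((m z).G * (m z).wn) ((m z).o (x z)) (q z)
      (fun j => X z ((m z).zb (k z) + j)))

/-- LSOP (may assume LSFN). The operations on digits are computed in linear space, as
`Tok3.LSOP_stmt`. In `yR` the node is smaller than `G` if `isY ≠ 0`, so it can be replaced by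
`min nd (G - 1)`; `2 ^ σ ≤ 2 ^ (σ * E) ≤ C`. -/
def LSOP_stmt : Prop := ∀ {α : Type} [Ctx α] {m : α → Mach} {C p : α → ℕ},
    LSM m C → LS p → (∀ z, 0 < p z) →
    LS (fun z : α × ℕ × ℕ × ℕ × ℕ => (m z.1).opA (p z.1) z.2.1 z.2.2.1
      (dig (p z.1) z.2.2.2.1) z.2.2.2.2) ∧
    LS (fun z : α × ℕ × ℕ => (m z.1).baseA (p z.1) (dig (p z.1) z.2.1) z.2.2)

/-! ### The parameters -/

/-- The amount of memory, in registers. -/
def qT (n : ℕ) : ℕ := n / ll n + 1

/-- The number of digits of each kind. -/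
def JT (n : ℕ) : ℕ := 8 * qT n

/-- The bound for all numbers. -/
def CT (x : ℕ) : ℕ := (x + 2) ^ 4000

/-- The parameters of the machine `m` are admissible for inputs of length `n`. -/
structure Par (n : ℕ) (m : Mach) : Prop where
  h1 : m.G * m.wn + m.wv ≤ 4 * qT n
  h2 : m.K * (m.G + 2) ≤ 4 * qT n
  h3 : (m.K + 1) * m.σ ≤ 4 * qT n
  h4 : (m.K + 1) * (m.σ * m.E) ≤ 4 * (n + 1)

/-- PARA. Let `q = qT n ≥ 1`. `G ≤ G * wn` and `E ≤ wv` as `0 < a, b, E`, so `G, E ≤ 4 q`, and
`4 q ≤ 4 (n + 1) < (n + 2) ^ 4 - 1 ≤ p - 1` for `p = pR n` (`nextPrime_spec`; compare the proofs of PAR1 of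
`Helper28.Ram` and PARA of `Tok3`). -/
def PARA_stmt : Prop := ∀ (n : ℕ) (m : Mach), m.Ok → Par n m →
    m.Fit (pR n) (JT n) ∧ m.nv m.G < pR n - 1

/-- PARB. (Compare PAR2 of `Helper28.Ram` and PARB of `Tok3`.) Put `n = log x`, `λ = ll n ≥ 1`,
`q = n / λ + 1`; `λ ≤ n + 1`, so `q λ ≤ 2 (n + 1)`. `n + 2 ≤ 2 ^ (λ + 1)` and Bertrand give
`p ≤ 2 (n + 2) ^ 4 ≤ 2 ^ (4 λ + 5) ≤ 2 ^ (9 λ)`. So `p ^ (6 JT) ≤ 2 ^ (48 q * 9 λ) ≤ 2 ^ (864 (n + 1))`.
`nv G ≤ 4 q ≤ 4 (n + 1)`, `σ E ≤ 4 (n + 1)`. The product over `l < K (G + 2)`: `K` factors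
`2 ^ (σ E) (p - 1) (2 E + 3)` and `K (G + 1)` factors `(p - 1) (2 G + 3)`; `2 E + 3, 2 G + 3 ≤ 8 q + 3
≤ 11 (n + 2) ≤ 2 ^ (4 + λ + 1) ≤ 2 ^ (6 λ)`; so the product is at most
`2 ^ (K σ E + K (G + 2) * 15 λ) ≤ 2 ^ (4 (n + 1) + 60 q λ) ≤ 2 ^ (124 (n + 1))`. Finally
`two_pow_log_le : 2 ^ (k * (log x + 1)) ≤ (x + 2) ^ (2 k)`. -/
def PARB_stmt : Prop := ∀ (x : ℕ) (m : Mach), m.Ok → Par (Nat.log 2 x) m →
    (pR (Nat.log 2 x) ^ (6 * JT (Nat.log 2 x)) ≤ CT x ∧
      ∏ l ∈ range (m.K * (m.G + 2)), m.cnt (pR (Nat.log 2 x)) l ≤ CT x) ∧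
    2 ^ m.nv m.G ≤ CT x ∧ 2 ^ (m.σ * m.E) ≤ CT x

/-! ### The result of the simulation -/

/-- The simulation theorem. -/
structure Sim where
  sim : ℕ → Mach → ℕ
  ls : ∀ {α : Type} [Ctx α] {m : α → Mach} {x : α → ℕ}, LS x →
    LSM m (fun z => CT (x z)) → (∀ z, Par (Nat.log 2 (x z)) (m z)) →
    LS (fun z => sim (Nat.log 2 (x z)) (m z))
  eq : ∀ (m : Mach) (n : ℕ), m.Ok → Par n m → sim n m = m.T m.K m.root
  nv : ∀ (m : Mach) (x : ℕ), m.Ok → Par (Nat.log 2 x) m →
    2 ^ m.nv m.G ≤ CT x ∧ 2 ^ (m.σ * m.E) ≤ CT x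

end Pool.Agent.Helper65.RT
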