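import Pool.Agent.Helper81.Tok3.Num

/-!
# Parallel machines with adaptive reads: the space-efficient simulation

The value of the name `x` after the phase `k + 1` is computed from the values after the phase `k`
in `G * E` events: the event number `i` reads the value `v` of the name `q x i Z`, where `Z` codes
the digests of the events before, and its digest is `g x i Z v`; at the end the value is `o x Z`.
Names have `σ` bits, digests `a` bits and values `b` bits. The digests of all events fit into the
memory, but there is no room for the digests of all phases.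

The events of a phase are divided into `G` groups of `E` events. The registers of the simulation
are elements of `ZMod p`; there are two areas, one for the phases with an even number and one for
those with an odd number. The first `G * wn` registers of an area belong to the bits of the digests
of the phase (`wn = a * E` for each group), the others to the bits of the values which are read in
the `E` events of one group. To compute the digests of a group one sums over all lists `y` of `E`
names; for each of them the `E` values are loaded and it is checked that these are the names which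
are really read.
-/

namespace Pool.Agent.Helper65.RT

open Pool.Agent.Helper65.LinSpace Pool.Agent.Helper28.Ram Pool.Agent.Helper81.Tok3 Finset
open Pool.Agent.Helper28.Ram.Mach (sgz)
open Pool.Agent.Helper81.Tok3.Mach (addR scaR)

/-- A parallel machine on numbers, and the parameters of the simulation. -/
structure Mach where
  σ : ℕ
  a : ℕ
  b : ℕ
  E : ℕ
  G : ℕ
  K : ℕ
  q : ℕ → ℕ → ℕ → ℕ
  g : ℕ → ℕ → ℕ → ℕ → ℕ
  o : ℕ → ℕ → ℕ
  t0 : ℕ → ℕ
  root : ℕ

/-- Names have `σ` bits, digests `a` bits and values `b` bits. -/
structure Mach.Ok (m : Mach) : Prop where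
  hσ : 0 < m.σ
  ha : 0 < m.a
  hb : 0 < m.b
  hE : 0 < m.E
  hG : 0 < m.G
  hq : ∀ x i Z, m.q x i Z < 2 ^ m.σ
  hg : ∀ x i Z v, m.g x i Z v < 2 ^ m.a
  ho : ∀ x Z, m.o x Z < 2 ^ m.b
  ht0 : ∀ x, m.t0 x < 2 ^ m.b
  hroot : m.root < 2 ^ m.σ

namespace Mach

variable (m : Mach)

/-- The digests of the first `i` events of the name `x` (in base `2 ^ a`), the values of the last
phase being `R`. -/
def Zt (R : ℕ → ℕ) (x : ℕ) : ℕ → ℕ
  | 0 => 0
  | i + 1 => Zt R x i + 2 ^ (m.a * i) * m.g x i (Zt R x i) (R (m.q x i (Zt R x i)))

/-- The value of the name `x` after the phase `k`. -/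
def T : ℕ → ℕ → ℕ
  | 0, x => m.t0 x
  | k + 1, x => m.o x (m.Zt (T k) x (m.G * m.E))

/-- The number of registers of the digests of a group. -/
def wn : ℕ := m.a * m.E

/-- The number of registers of the values of a group. -/
def wv : ℕ := m.E * m.b

/-- The number of variables of the group `i`: the registers of the groups before `i`, and the
registers of the values. -/
def nv (i : ℕ) : ℕ := i * m.wn + m.wv

/-! ### Boolean functions

A number `z` codes the digests of the groups before `i` (in base `2 ^ a`), then the `E` values which
are read in the group `i` (in base `2 ^ b`). A list `y` consists of `E` names (in base `2 ^ σ`). -/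

/-- The digests of the first `i * E + e` events. -/
def Zr (i x z e : ℕ) : ℕ :=
  nrec (z % 2 ^ (i * m.wn)) (fun e Z => Z + 2 ^ (m.a * (i * m.E + e)) *
    m.g x (i * m.E + e) Z (dig (2 ^ m.b) (z / 2 ^ (i * m.wn)) e)) e

/-- `1` if the first `n` names of the list `y` are right. -/
def ok (i x y z n : ℕ) : ℕ :=
  nrec 1 (fun e c => c * eq01 (m.q x (i * m.E + e) (m.Zr i x z e)) (dig (2 ^ m.σ) y e)) n

/-- The digests of the group `i`, and `0` if the list `y` is wrong. -/
def F (i x y z : ℕ) : ℕ := m.ok i x y z m.E * (m.Zr i x z m.E / 2 ^ (i * m.wn))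

/-! ### Polynomials -/

section

variable (p : ℕ)

/-- The variables of the group `i`: the registers of the groups before `i`, then the cells `D`. -/
def vars (i : ℕ) (X D : ℕ → ZMod p) (j : ℕ) : ZMod p :=
  if j < i * m.wn then X j else D (j - i * m.wn)

/-- The bits of the values of the names in the list `y` after the phase `k`. -/
def Y (k y j : ℕ) : ZMod p := bitZ p (m.T k (dig (2 ^ m.σ) y (j / m.b))) (j % m.b)

/-- The polynomials of the group `i` for the phase `k + 1` and the name `x`; `i = G` stands for the
value of `x`. -/
def P (k i x : ℕ) (X : ℕ → ZMod p) (o : ℕ) : ZMod p :=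
  if i < m.G then
    ∑ y ∈ range (2 ^ (m.σ * m.E)), fhat p (m.nv i) (m.F i x y) o (m.vars p i X (m.Y p k y))
  else fhat p (m.G * m.wn) (m.o x) o X

/-- The digests of the group `i` for the phase `k + 1` and the name `x`, as a number; `i = G` stands
for the value of `x`. -/
def vn (k i x : ℕ) : ℕ :=
  if i < m.G then m.Zt (m.T k) x (i * m.E + m.E) / 2 ^ (i * m.wn) else m.T (k + 1) x

/-- The bits of `vn`. -/
def V (k i x o : ℕ) : ZMod p := bitZ p (m.vn k i x) o

/-! ### The procedures -/

/-- The first register of the area of the phase `k + 1`. -/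
def zb (k : ℕ) : ℕ := k % 2 * (m.G * m.wn + m.wv)

/-- The first register of the values in the area of the phase `k + 1`. -/
def yb (k : ℕ) : ℕ := m.zb k + m.G * m.wn

/-- The states of the simulation: registers; mode, node and sign of each level; for each phase the
name whose value is computed, and the position of the value. -/
structure St where
  R : ℕ → ZMod p
  md : ℕ → ℕ
  nd : ℕ → ℕ
  sg : ℕ → ℕ
  qa : ℕ → ℕ
  sl : ℕ → ℕ

variable {p} in
/-- Set mode, node and sign of the level `l`. -/
def St.call (s : St p) (l c i g : ℕ) : St p :=
  { s with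
    md := Function.update s.md l c
    nd := Function.update s.nd l i
    sg := Function.update s.sg l g }

variable {p} in
/-- Ask for the value of the name `x` in the phase `k`, at the position `t`. -/
def St.query (s : St p) (k x t : ℕ) : St p :=
  { s with
    qa := Function.update s.qa k x
    sl := Function.update s.sl k t }

variable {p}

/-- The first register of the value which is computed in the phase `k`. -/
def tg (s : St p) (k : ℕ) : ℕ := m.yb k + s.sl k % m.E * m.b

/-- The first register of the output of the node `i` of the phase `k + 1`. -/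
def lo (s : St p) (k i : ℕ) : ℕ := if i < m.G then m.zb k + i * m.wn else m.tg s (k + 1)

/-- The number of registers of the output of the node `i`. -/
def ln (i : ℕ) : ℕ := if i < m.G then m.wn else m.b

/-- The level `0`: the values at the start of the computation. -/
def op0 (s : St p) : St p :=
  if s.md 0 = 1 then
    { s with R := addR (m.tg s 0) m.b (fun o => sgz p (s.sg 0) * bitZ p (m.t0 (s.qa 0)) o) s.R }
  else s

/-- The evaluation of the polynomials of the node `i < G` in the level `l + 1`, which belongs to the
phase `k + 1`: the operation number `t ≤ 2 * E + 2` for the list `y` and the factor `c`. First the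
registers of the values are multiplied by `c`, then the `E` values are added, then the value of the
polynomial is added to the registers of the node, then the values are subtracted, and the registers
are divided by `c`. -/
def opY (l k y c t : ℕ) (s : St p) : St p :=
  if t = 0 then
    ({ s with R := scaR (m.yb k) m.wv (c : ZMod p) s.R } : St p).call l 0 0 0
  else if t ≤ m.E then
    (s.query k (dig (2 ^ m.σ) y (t - 1)) (t - 1)).call l 1 m.G 0
  else if t = m.E + 1 then
    ({ s with
        R := addR (m.zb k + s.nd (l + 1) * m.wn) m.wn (fun o => sgz p (s.sg (l + 1)) *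
          fhat p (m.nv (s.nd (l + 1))) (m.F (s.nd (l + 1)) (s.qa (k + 1)) y) o
            (m.vars p (s.nd (l + 1)) (fun j => s.R (m.zb k + j)) fun j => s.R (m.yb k + j))) s.R } :
      St p).call l 0 0 0
  else if t ≤ 2 * m.E + 1 then
    (s.query k (dig (2 ^ m.σ) y (t - (m.E + 2))) (t - (m.E + 2))).call l 1 m.G 1
  else
    ({ s with R := scaR (m.yb k) m.wv (c : ZMod p)⁻¹ s.R } : St p).call l 0 0 0

/-- The evaluation of the polynomials: the operation `j` of the level `l + 1`, which belongs to the
phase `k + 1`. -/
def opE (l k j : ℕ) (s : St p) : St p :=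
  if s.md (l + 1) = 2 ∧ s.nd (l + 1) < m.G then
    m.opY l k (j / (2 * m.E + 3) / (p - 1)) (j / (2 * m.E + 3) % (p - 1) + 1)
      (j % (2 * m.E + 3)) s
  else if s.md (l + 1) = 2 ∧ s.nd (l + 1) = m.G ∧ j = 0 then
    ({ s with
        R := addR (m.tg s (k + 1)) m.b (fun o => -(sgz p (s.sg (l + 1)) *
          fhat p (m.G * m.wn) (m.o (s.qa (k + 1))) o fun j => s.R (m.zb k + j))) s.R } :
      St p).call l 0 0 0
  else s.call l 0 0 0

/-- The evaluation of the nodes before `h` of the phase `k + 1`: the operation `j` of the level
`l + 1`. -/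
def opN (l k h j : ℕ) (s : St p) : St p :=
  if s.md (l + 1) = 1 ∧ s.nd (l + 1) < h then
    if j % (2 * m.G + 3) = 0 then
      ({ s with
          R := scaR (m.zb k) (s.nd (l + 1) * m.wn) ((j / (2 * m.G + 3) + 1 : ℕ) : ZMod p) s.R } :
        St p).call l 0 0 0
    else if j % (2 * m.G + 3) ≤ m.G then
      if j % (2 * m.G + 3) - 1 < s.nd (l + 1) then s.call l 1 (j % (2 * m.G + 3) - 1) 0
      else s.call l 0 0 0
    else if j % (2 * m.G + 3) = m.G + 1 then s.call l 2 (s.nd (l + 1)) (s.sg (l + 1))
    else if j % (2 * m.G + 3) ≤ 2 * m.G + 1 then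
      if j % (2 * m.G + 3) - (m.G + 2) < s.nd (l + 1) then
        s.call l 1 (j % (2 * m.G + 3) - (m.G + 2)) 1
      else s.call l 0 0 0
    else
      ({ s with
          R := scaR (m.zb k) (s.nd (l + 1) * m.wn) ((j / (2 * m.G + 3) + 1 : ℕ) : ZMod p)⁻¹ s.R } :
        St p).call l 0 0 0
  else if s.md (l + 1) = 2 ∧ s.nd (l + 1) ≤ m.G ∧ j = 0 then
    s.call l 2 (s.nd (l + 1)) (s.sg (l + 1))
  else s.call l 0 0 0

/-- The operation `j` of the level `l + 1`. -/
def op (l j : ℕ) (s : St p) : St p :=
  if l % (m.G + 2) = 0 then m.opE l (l / (m.G + 2)) j s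
  else m.opN l (l / (m.G + 2)) (l % (m.G + 2)) j s

variable (p) in
/-- The number of operations of the level `l + 1`. -/
def cnt (l : ℕ) : ℕ :=
  ifz (l % (m.G + 2)) (2 ^ (m.σ * m.E) * (p - 1) * (2 * m.E + 3)) ((p - 1) * (2 * m.G + 3))

/-- The procedure of the level `l`. -/
def proc : ℕ → St p → St p
  | 0, s => m.op0 s
  | l + 1, s => iter (fun j s => proc l (m.op l j s)) (m.cnt p l) s

variable (p) in
/-- The state with an active call of the node `G` in the level `K * (G + 2)`, asking for the value
of the root. -/
def st0 : St p :=
  (({ R := fun _ => 0, md := fun _ => 0, nd := fun _ => 0, sg := fun _ => 0, qa := fun _ => 0,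
      sl := fun _ => 0 } : St p).query m.K m.root 0).call (m.K * (m.G + 2)) 1 m.G 0

/-- What the procedure of the level `l` does. -/
def ideal : ℕ → St p → St p
  | 0, s =>
    if s.md 0 = 1 then
      { s with
        R := addR (m.tg s 0) m.b (fun o => sgz p (s.sg 0) * bitZ p (m.T 0 (s.qa 0)) o) s.R }
    else s
  | l + 1, s =>
    if s.md (l + 1) = 2 ∧ s.nd (l + 1) ≤ m.G then
      { s with
        R := addR (m.lo s (l / (m.G + 2)) (s.nd (l + 1))) (m.ln (s.nd (l + 1)))
          (fun o => -(sgz p (s.sg (l + 1)) *
            m.P p (l / (m.G + 2)) (s.nd (l + 1)) (s.qa (l / (m.G + 2) + 1))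
              (fun j => s.R (m.zb (l / (m.G + 2)) + j)) o)) s.R }
    else if s.md (l + 1) = 1 ∧ s.nd (l + 1) < l % (m.G + 2) then
      { s with
        R := addR (m.lo s (l / (m.G + 2)) (s.nd (l + 1))) (m.ln (s.nd (l + 1)))
          (fun o => sgz p (s.sg (l + 1)) *
            m.V p (l / (m.G + 2)) (s.nd (l + 1)) (s.qa (l / (m.G + 2) + 1)) o) s.R }
    else s

/-- The states agree in all which the procedure of the level `l` does not use as its work space. -/
def Agree (l : ℕ) (s t : St p) : Prop :=
  s.R = t.R ∧ (∀ k, l ≤ k → s.md k = t.md k ∧ s.nd k = t.nd k ∧ s.sg k = t.sg k) ∧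
    ∀ k, l ≤ k * (m.G + 2) → s.qa k = t.qa k ∧ s.sl k = t.sl k

end

end Mach

end Pool.Agent.Helper65.RT
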