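import Pool.Agent.Helper65.RT.Alg

/-!
# Parallel machines with adaptive reads: the simulation on digits

An array `a : ℕ → ℕ` of digits codes a state of the simulation: the entry `6 x + c` is, for
`c = 0, …, 5`, the register `x`, the mode, the node and the sign of the level `x`, the bit `x % σ` of
the name of the phase `x / σ`, and the position of the value of the phase `x`.
-/

namespace Pool.Agent.Helper65.RT

open Pool.Agent.Helper65.LinSpace Pool.Agent.Helper28.Ram Pool.Agent.Helper81.Tok3 Finset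
open Pool.Agent.Helper28.Ram.Mach (sgz)
open Pool.Agent.Helper81.Tok3.Mach (addR scaR)

namespace Mach

variable (m : Mach)

/-- The variables of the group `i`: the registers of the groups before `i`, then the cells `D`. -/
def varN (i : ℕ) (X D : ℕ → ℕ) (j : ℕ) : ℕ := ifz (lt01 j (i * m.wn)) (D (j - i * m.wn)) (X j)

/-! ### The operations -/

/-- The name of the phase `t`. -/
def qN (a : ℕ → ℕ) (t : ℕ) : ℕ := tab 2 m.σ fun o => a (6 * (t * m.σ + o) + 4)

/-- The first register of the value which is computed in the phase `k`. -/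
def tgN (a : ℕ → ℕ) (k : ℕ) : ℕ := m.yb k + a (6 * k + 5) % m.E * m.b

/-- `1` if the level `l + 1` evaluates the polynomials of a node before `G`. -/
def isY (a : ℕ → ℕ) (l : ℕ) : ℕ :=
  eq01 (l % (m.G + 2)) 0 * (eq01 (a (6 * (l + 1) + 1)) 2 * lt01 (a (6 * (l + 1) + 2)) m.G)

/-- `1` if the level `l + 1` evaluates the polynomials of the node `G` in the operation `j`. -/
def isZ (a : ℕ → ℕ) (l j : ℕ) : ℕ :=
  eq01 (l % (m.G + 2)) 0 * (eq01 (a (6 * (l + 1) + 1)) 2 * eq01 (a (6 * (l + 1) + 2)) m.G *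
    eq01 j 0)

/-- `1` if the level `l + 1` evaluates a node. -/
def isN (a : ℕ → ℕ) (l : ℕ) : ℕ :=
  lt01 0 (l % (m.G + 2)) *
    (eq01 (a (6 * (l + 1) + 1)) 1 * lt01 (a (6 * (l + 1) + 2)) (l % (m.G + 2)))

/-- `1` if the level `l + 1` passes on the evaluation of polynomials. -/
def isP (a : ℕ → ℕ) (l j : ℕ) : ℕ :=
  lt01 0 (l % (m.G + 2)) *
    (eq01 (a (6 * (l + 1) + 1)) 2 * le01 (a (6 * (l + 1) + 2)) m.G * eq01 j 0)

/-- `1` if the operation number `t` asks for a value. -/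
def isQ (t : ℕ) : ℕ := ifz t 0 (ifz (eq01 t (m.E + 1)) (le01 t (2 * m.E + 1)) 0)

/-- The position of the value for which the operation number `t` asks. -/
def ixq (t : ℕ) : ℕ := ifz (lt01 (m.E + 1) t) (t - 1) (t - (m.E + 2))

/-- The new register `x` in the operation `t` for the list `y` and the factor `c` of the node `i` of
the phase `k + 1` for the name `u`. -/
def yR (p k i u y c t sg : ℕ) (a : ℕ → ℕ) (x : ℕ) : ℕ :=
  ifz t
    (ifz (rgn (m.yb k) m.wv x) (a (6 * x)) (c * a (6 * x) % p))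
    (ifz (eq01 t (m.E + 1))
      (ifz (eq01 t (2 * m.E + 2) * rgn (m.yb k) m.wv x) (a (6 * x)) (invN p c * a (6 * x) % p))
      (ifz (rgn (m.zb k + i * m.wn) m.wn x) (a (6 * x))
        ((a (6 * x) + ifz sg 1 (p - 1) * fhG p (m.nv i) (m.F i u y) (x - (m.zb k + i * m.wn))
          (m.varN i (fun j => a (6 * (m.zb k + j))) fun j => a (6 * (m.yb k + j)))) % p)))

/-- The new register `x`. -/
def nR (p l j : ℕ) (a : ℕ → ℕ) (x : ℕ) : ℕ :=
  ifz (m.isY a l)
    (ifz (m.isZ a l j)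
      (ifz (m.isN a l * rgn (m.zb (l / (m.G + 2))) (a (6 * (l + 1) + 2) * m.wn) x)
        (a (6 * x))
        (ifz (j % (2 * m.G + 3))
          ((j / (2 * m.G + 3) + 1) * a (6 * x) % p)
          (ifz (eq01 (j % (2 * m.G + 3)) (2 * m.G + 2)) (a (6 * x))
            (invN p (j / (2 * m.G + 3) + 1) * a (6 * x) % p))))
      (ifz (rgn (m.tgN a (l / (m.G + 2) + 1)) m.b x) (a (6 * x))
        ((a (6 * x) + ifz (a (6 * (l + 1) + 3)) (p - 1) 1 *
          fhG p (m.G * m.wn) (m.o (m.qN a (l / (m.G + 2) + 1))) (x - m.tgN a (l / (m.G + 2) + 1))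
            fun j => a (6 * (m.zb (l / (m.G + 2)) + j))) % p)))
    (m.yR p (l / (m.G + 2)) (a (6 * (l + 1) + 2)) (m.qN a (l / (m.G + 2) + 1))
      (j / (2 * m.E + 3) / (p - 1)) (j / (2 * m.E + 3) % (p - 1) + 1) (j % (2 * m.E + 3))
      (a (6 * (l + 1) + 3)) a x)

/-- The new mode of the level `l`. -/
def cMd (l j : ℕ) (a : ℕ → ℕ) : ℕ :=
  ifz (m.isY a l)
    (ifz (m.isZ a l j)
      (ifz (m.isN a l)
        (ifz (m.isP a l j) 0 2)
        (ifz (j % (2 * m.G + 3)) 0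
          (ifz (le01 (j % (2 * m.G + 3)) m.G)
            (ifz (eq01 (j % (2 * m.G + 3)) (m.G + 1))
              (ifz (le01 (j % (2 * m.G + 3)) (2 * m.G + 1)) 0
                (lt01 (j % (2 * m.G + 3) - (m.G + 2)) (a (6 * (l + 1) + 2))))
              2)
            (lt01 (j % (2 * m.G + 3) - 1) (a (6 * (l + 1) + 2))))))
      0)
    (m.isQ (j % (2 * m.E + 3)))

/-- The new node of the level `l`. -/
def cNd (l j : ℕ) (a : ℕ → ℕ) : ℕ :=
  ifz (m.isY a l)
    (ifz (m.isZ a l j)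
      (ifz (m.isN a l)
        (ifz (m.isP a l j) 0 (a (6 * (l + 1) + 2)))
        (ifz (j % (2 * m.G + 3)) 0
          (ifz (le01 (j % (2 * m.G + 3)) m.G)
            (ifz (eq01 (j % (2 * m.G + 3)) (m.G + 1))
              (ifz (le01 (j % (2 * m.G + 3)) (2 * m.G + 1)) 0
                (lt01 (j % (2 * m.G + 3) - (m.G + 2)) (a (6 * (l + 1) + 2)) *
                  (j % (2 * m.G + 3) - (m.G + 2))))
              (a (6 * (l + 1) + 2)))
            (lt01 (j % (2 * m.G + 3) - 1) (a (6 * (l + 1) + 2)) * (j % (2 * m.G + 3) - 1)))))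
      0)
    (m.isQ (j % (2 * m.E + 3)) * m.G)

/-- The new sign of the level `l`. -/
def cSg (l j : ℕ) (a : ℕ → ℕ) : ℕ :=
  ifz (m.isY a l)
    (ifz (m.isZ a l j)
      (ifz (m.isN a l)
        (ifz (m.isP a l j) 0 (a (6 * (l + 1) + 3)))
        (ifz (j % (2 * m.G + 3)) 0
          (ifz (le01 (j % (2 * m.G + 3)) m.G)
            (ifz (eq01 (j % (2 * m.G + 3)) (m.G + 1))
              (ifz (le01 (j % (2 * m.G + 3)) (2 * m.G + 1)) 0
                (lt01 (j % (2 * m.G + 3) - (m.G + 2)) (a (6 * (l + 1) + 2))))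
              (a (6 * (l + 1) + 3)))
            0)))
      0)
    (m.isQ (j % (2 * m.E + 3)) * lt01 (m.E + 1) (j % (2 * m.E + 3)))

/-- The new bit `x` of the names. -/
def nQ (p l j : ℕ) (a : ℕ → ℕ) (x : ℕ) : ℕ :=
  ifz (m.isY a l * (m.isQ (j % (2 * m.E + 3)) * eq01 (x / m.σ) (l / (m.G + 2))))
    (a (6 * x + 4))
    (dig 2 (dig (2 ^ m.σ) (j / (2 * m.E + 3) / (p - 1)) (m.ixq (j % (2 * m.E + 3)))) (x % m.σ))

/-- The new position of the phase `x`. -/
def nSl (l j : ℕ) (a : ℕ → ℕ) (x : ℕ) : ℕ :=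
  ifz (m.isY a l * (m.isQ (j % (2 * m.E + 3)) * eq01 x (l / (m.G + 2))))
    (a (6 * x + 5))
    (m.ixq (j % (2 * m.E + 3)))

/-- The operation `j` of the level `l + 1`. -/
def opA (p l j : ℕ) (a : ℕ → ℕ) (x : ℕ) : ℕ :=
  ifz (x % 6) (m.nR p l j a (x / 6))
    (ifz (x % 6 - 1) (ifz (eq01 (x / 6) l) (a x) (m.cMd l j a))
      (ifz (x % 6 - 2) (ifz (eq01 (x / 6) l) (a x) (m.cNd l j a))
        (ifz (x % 6 - 3) (ifz (eq01 (x / 6) l) (a x) (m.cSg l j a))
          (ifz (x % 6 - 4) (m.nQ p l j a (x / 6)) (m.nSl l j a (x / 6)))))) % p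

/-- The operation of the level `0`. -/
def baseA (p : ℕ) (a : ℕ → ℕ) (x : ℕ) : ℕ :=
  (a x + eq01 (a 1) 1 * (eq01 (x % 6) 0 * rgn (m.tgN a 0) m.b (x / 6)) *
    (ifz (a 3) 1 (p - 1) * dig 2 (m.t0 (m.qN a 0)) (x / 6 - m.tgN a 0))) % p

/-- The initial array. -/
def initA (x : ℕ) : ℕ :=
  ifz (eq01 x (6 * (m.K * (m.G + 2)) + 1))
    (ifz (eq01 x (6 * (m.K * (m.G + 2)) + 2))
      (eq01 (x % 6) 4 * (eq01 (x / 6 / m.σ) m.K * dig 2 m.root (x / 6 % m.σ)))
      m.G) 1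

/-- The value of the root after the phase `K`. -/
def sim (p J : ℕ) : ℕ :=
  tab 2 m.b fun o => prc (6 * J) (m.cnt p) (m.baseA p) (m.opA p) (m.K * (m.G + 2))
    (trc (6 * J) m.initA) (6 * (m.yb m.K + o)) % 2

variable {p : ℕ}

/-- The code of a state of the simulation. -/
def enc (s : St p) (x : ℕ) : ℕ :=
  if x % 6 = 0 then (s.R (x / 6)).val
  else if x % 6 = 1 then s.md (x / 6)
  else if x % 6 = 2 then s.nd (x / 6)
  else if x % 6 = 3 then s.sg (x / 6)
  else if x % 6 = 4 then dig 2 (s.qa (x / 6 / m.σ)) (x / 6 % m.σ)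
  else s.sl (x / 6)

/-- The array `a` codes the state `s`. -/
def Rel (J : ℕ) (a : ℕ → ℕ) (s : St p) : Prop :=
  (∀ x < 6 * J, a x = m.enc s x ∧ a x < p) ∧ ∀ t ≤ m.K, s.qa t < 2 ^ m.σ

variable (p) in
/-- The prime and the arrays are large enough. -/
structure Fit (J : ℕ) : Prop where
  h1 : 2 * (m.G * m.wn + m.wv) ≤ J
  h2 : m.K * (m.G + 2) < J
  h3 : (m.K + 1) * m.σ ≤ J
  h4 : m.G < p
  h5 : 2 < p
  h6 : m.E < p

end Mach

/-- A family of machines whose parameters and functions are computed in linear space. -/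
structure LSM {α : Type} [Ctx α] (m : α → Mach) (C : α → ℕ) : Prop where
  σ : LS (fun z => (m z).σ)
  a : LS (fun z => (m z).a)
  b : LS (fun z => (m z).b)
  E : LS (fun z => (m z).E)
  G : LS (fun z => (m z).G)
  K : LS (fun z => (m z).K)
  q : LS (fun z : α × ℕ × ℕ × ℕ => (m z.1).q z.2.1 z.2.2.1 z.2.2.2)
  g : LS (fun z : α × ℕ × ℕ × ℕ × ℕ => (m z.1).g z.2.1 z.2.2.1 z.2.2.2.1 z.2.2.2.2)
  o : LS (fun z : α × ℕ × ℕ => (m z.1).o z.2.1 z.2.2)
  t0 : LS (fun z : α × ℕ => (m z.1).t0 z.2)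
  root : LS (fun z => (m z).root)
  bd : LS C
  ok : ∀ z, (m z).Ok
  hC : ∀ z, 2 ^ (m z).nv (m z).G ≤ C z
  hS : ∀ z, 2 ^ ((m z).σ * (m z).E) ≤ C z

end Pool.Agent.Helper65.RT
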